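import Pool.Agent.E8helper59.TS.Stm4

/-!
# Project TS, part S_DIA: separation by slabs parallel to the axes in the plane
-/

set_option autoImplicit false
open MeasureTheory Set Filter Topology
open scoped Pointwise ENNReal

namespace Pool.Agent.E8helper56.TS

open Pool.Agent.E8helper59.TS

theorem Dia_le {p : ℝ × ℝ} (hp : p ∈ Dia) : |p.1| ≤ 1 / 2 ∧ |p.2| ≤ 1 / 2 := by
  have h : |p.1| + |p.2| ≤ 1 / 2 := hp
  have h1 := abs_nonneg p.1
  have h2 := abs_nonneg p.2
  exact ⟨by linarith, by linarith⟩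

theorem bod_Dia : Bod Dia where
  comp := by
    have hc : IsClosed Dia := by
      have : Continuous fun p : ℝ × ℝ => |p.1| + |p.2| := by fun_prop
      exact isClosed_le this continuous_const
    refine IsCompact.of_isClosed_subset (isCompact_closedBall (0 : ℝ × ℝ) (1 / 2)) hc ?_
    intro p hp
    rw [mem_closedBall_zero_iff, Prod.norm_def, Real.norm_eq_abs, Real.norm_eq_abs]
    exact max_le (Dia_le hp).1 (Dia_le hp).2
  conv := by
    intro p hp q hq a b ha hb hab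
    have h1 : |p.1| + |p.2| ≤ 1 / 2 := hp
    have h2 : |q.1| + |q.2| ≤ 1 / 2 := hq
    change |a * p.1 + b * q.1| + |a * p.2 + b * q.2| ≤ 1 / 2
    have h3 := abs_add_le (a * p.1) (b * q.1)
    have h4 := abs_add_le (a * p.2) (b * q.2)
    rw [abs_mul, abs_mul, abs_of_nonneg ha, abs_of_nonneg hb] at h3 h4
    nlinarith [mul_le_mul_of_nonneg_left h1 ha, mul_le_mul_of_nonneg_left h2 hb]
  int := by
    refine ⟨0, ?_⟩
    rw [mem_interior]
    refine ⟨{p : ℝ × ℝ | |p.1| + |p.2| < 1 / 2}, fun p hp => ?_, ?_, ?_⟩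
    · exact le_of_lt (by exact hp : |p.1| + |p.2| < 1 / 2)
    · have : Continuous fun p : ℝ × ℝ => |p.1| + |p.2| := by fun_prop
      exact isOpen_lt this continuous_const
    · change |(0 : ℝ)| + |(0 : ℝ)| < 1 / 2
      rw [abs_zero]
      norm_num
  symm := by
    intro p hp
    change |-p.1| + |-p.2| ≤ 1 / 2
    rw [abs_neg, abs_neg]
    exact hp

theorem half_mem : ((1 / 2 : ℝ), (0 : ℝ)) ∈ Dia := by
  change |(1 / 2 : ℝ)| + |(0 : ℝ)| ≤ 1 / 2
  rw [abs_zero, abs_of_nonneg (by norm_num)]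
  norm_num

theorem half_mem' : ((0 : ℝ), (1 / 2 : ℝ)) ∈ Dia := by
  change |(0 : ℝ)| + |(1 / 2 : ℝ)| ≤ 1 / 2
  rw [abs_zero, abs_of_nonneg (by norm_num)]
  norm_num

/-- the area of the diamond -/
theorem vol_Dia : (volume Dia).toReal = 1 / 2 := by
  set f : (ℝ × ℝ) →ₗ[ℝ] (ℝ × ℝ) :=
    Matrix.toLin (Module.Basis.finTwoProd ℝ) (Module.Basis.finTwoProd ℝ) !![1, 1; 1, -1] with hf
  have hdet : LinearMap.det f = -2 := by
    rw [hf, LinearMap.det_toLin, Matrix.det_fin_two_of]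
    norm_num
  have happ : ∀ p : ℝ × ℝ, f p = (p.1 + p.2, p.1 - p.2) := by
    intro p
    rw [hf, Matrix.toLin_finTwoProd_apply]
    ext
    · simp
    · simp
      ring
  have hpre : f ⁻¹' Dia = Metric.closedBall (0 : ℝ) (1 / 4) ×ˢ Metric.closedBall (0 : ℝ) (1 / 4) := by
    ext p
    rw [mem_preimage, happ]
    change |p.1 + p.2| + |p.1 - p.2| ≤ 1 / 2 ↔
      p.1 ∈ Metric.closedBall (0 : ℝ) (1 / 4) ∧ p.2 ∈ Metric.closedBall (0 : ℝ) (1 / 4)
    rw [mem_closedBall_zero_iff, mem_closedBall_zero_iff, Real.norm_eq_abs, Real.norm_eq_abs]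
    constructor
    · intro h
      constructor
      · rw [abs_le]
        constructor
        · linarith [neg_abs_le (p.1 + p.2), neg_abs_le (p.1 - p.2)]
        · linarith [le_abs_self (p.1 + p.2), le_abs_self (p.1 - p.2)]
      · rw [abs_le]
        constructor
        · linarith [neg_abs_le (p.1 + p.2), le_abs_self (p.1 - p.2)]
        · linarith [le_abs_self (p.1 + p.2), neg_abs_le (p.1 - p.2)]
    · rintro ⟨h1, h2⟩
      rw [abs_le] at h1 h2
      rcases abs_cases (p.1 + p.2) with ⟨h3, _⟩ | ⟨h3, _⟩ <;>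
        rcases abs_cases (p.1 - p.2) with ⟨h4, _⟩ | ⟨h4, _⟩ <;> linarith
  have h1 := Measure.addHaar_preimage_linearMap (volume : Measure (ℝ × ℝ))
    (f := f) (by rw [hdet]; norm_num) Dia
  rw [hpre, hdet, Measure.volume_eq_prod, Measure.prod_prod, Real.volume_closedBall] at h1
  have h2 := congrArg ENNReal.toReal h1
  rw [ENNReal.toReal_mul, ENNReal.toReal_mul, ENNReal.toReal_ofReal (by norm_num),
    ENNReal.toReal_ofReal (by positivity)] at h2
  have h3 : |(-2 : ℝ)⁻¹| = 1 / 2 := by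
    rw [abs_inv, abs_neg, abs_of_nonneg (by norm_num : (0 : ℝ) ≤ 2)]
    norm_num
  rw [h3] at h2
  rw [← Measure.volume_eq_prod] at h2
  linarith

/-- the inequality for the functional `u` -/
def StepFor (u : (ℝ × ℝ) →L[ℝ] ℝ) : Prop :=
  ∀ C : Set (ℝ × ℝ), IsCompact C → Convex ℝ C → ∀ c : ℝ, (∃ p ∈ C, u p ≤ c) →
    (∃ p ∈ C, c + 1 ≤ u p) →
    (volume ((C ∩ {p | u p ≤ c}) + Dia)).toReal + (volume ((C ∩ {p | c + 1 ≤ u p}) + Dia)).toReal +
      1 ≤ (volume (C + Dia)).toReal + (volume Dia).toReal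

theorem vol_singleton_add (v : ℝ × ℝ) (S : Set (ℝ × ℝ)) : volume ({v} + S) = volume S := by
  rw [Set.singleton_add, Set.image_add_left, measure_preimage_add]

theorem step_fst (h : S_STEP) : StepFor (ContinuousLinearMap.fst ℝ ℝ ℝ) := by
  intro C hC hCv c h1 h2
  have e1 : (({((-c : ℝ), (0 : ℝ))} + C) ∩ {p : ℝ × ℝ | p.1 ≤ 0}) =
      {((-c : ℝ), (0 : ℝ))} + (C ∩ {p : ℝ × ℝ | (ContinuousLinearMap.fst ℝ ℝ ℝ) p ≤ c}) := by
    ext p
    rw [Set.singleton_add, Set.singleton_add]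
    constructor
    · rintro ⟨⟨q, hq, rfl⟩, hp⟩
      refine ⟨q, ⟨hq, ?_⟩, rfl⟩
      change q.1 ≤ c
      have : -c + q.1 ≤ 0 := hp
      linarith
    · rintro ⟨q, ⟨hq, hq2⟩, rfl⟩
      refine ⟨⟨q, hq, rfl⟩, ?_⟩
      have hq3 : q.1 ≤ c := hq2
      change -c + q.1 ≤ 0
      linarith
  have e2 : (({((-c : ℝ), (0 : ℝ))} + C) ∩ {p : ℝ × ℝ | 1 ≤ p.1}) =
      {((-c : ℝ), (0 : ℝ))} + (C ∩ {p : ℝ × ℝ | c + 1 ≤ (ContinuousLinearMap.fst ℝ ℝ ℝ) p}) := by
    ext p
    rw [Set.singleton_add, Set.singleton_add]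
    constructor
    · rintro ⟨⟨q, hq, rfl⟩, hp⟩
      refine ⟨q, ⟨hq, ?_⟩, rfl⟩
      change c + 1 ≤ q.1
      have : 1 ≤ -c + q.1 := hp
      linarith
    · rintro ⟨q, ⟨hq, hq2⟩, rfl⟩
      refine ⟨⟨q, hq, rfl⟩, ?_⟩
      have hq3 : c + 1 ≤ q.1 := hq2
      change 1 ≤ -c + q.1
      linarith
  have key := h 1 Dia ({((-c : ℝ), (0 : ℝ))} + C) bod_Dia (fun p hp => (Dia_le hp).1)
    ⟨_, half_mem, rfl⟩ (fun m y hy => by
      have := hy _ half_mem'
      simp only [mul_zero, sub_zero] at this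
      linarith) (isCompact_singleton.add hC) ((convex_singleton _).add hCv) (by
      obtain ⟨p, hp, hpc⟩ := h1
      refine ⟨_, Set.add_mem_add (Set.mem_singleton _) hp, ?_⟩
      have hq3 : p.1 ≤ c := hpc
      change -c + p.1 ≤ 0
      linarith) (by
      obtain ⟨p, hp, hpc⟩ := h2
      refine ⟨_, Set.add_mem_add (Set.mem_singleton _) hp, ?_⟩
      have hq3 : c + 1 ≤ p.1 := hpc
      change 1 ≤ -c + p.1
      linarith)
  rw [e1, e2, add_assoc {((-c : ℝ), (0 : ℝ))}, add_assoc {((-c : ℝ), (0 : ℝ))},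
    add_assoc {((-c : ℝ), (0 : ℝ))}, vol_singleton_add, vol_singleton_add, vol_singleton_add] at key
  exact key

theorem vol_swap (S : Set (ℝ × ℝ)) : volume (Prod.swap ⁻¹' S) = volume S := by
  have h : MeasurePreserving (MeasurableEquiv.prodComm : ℝ × ℝ ≃ᵐ ℝ × ℝ) volume volume :=
    Measure.measurePreserving_swap
  exact h.measure_preimage_equiv S

theorem swap_Dia (p : ℝ × ℝ) : p.swap ∈ Dia ↔ p ∈ Dia := by
  change |p.2| + |p.1| ≤ 1 / 2 ↔ |p.1| + |p.2| ≤ 1 / 2
  rw [add_comm]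

theorem swap_add (S : Set (ℝ × ℝ)) : Prod.swap ⁻¹' (S + Dia) = (Prod.swap ⁻¹' S) + Dia := by
  ext p
  constructor
  · rintro ⟨a, ha, b, hb, hab⟩
    refine ⟨a.swap, ?_, b.swap, (swap_Dia b).mpr hb, ?_⟩
    · change a.swap.swap ∈ S
      rw [Prod.swap_swap]
      exact ha
    · have : p = (p.swap).swap := (Prod.swap_swap p).symm
      rw [this, ← hab]
      rfl
  · rintro ⟨a, ha, b, hb, rfl⟩
    exact ⟨a.swap, ha, b.swap, (swap_Dia b).mpr hb, rfl⟩

theorem step_snd (h : S_STEP) : StepFor (ContinuousLinearMap.snd ℝ ℝ ℝ) := by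
  intro C hC hCv c h1 h2
  have hC' : IsCompact (Prod.swap ⁻¹' C : Set (ℝ × ℝ)) := by
    have : (Prod.swap ⁻¹' C : Set (ℝ × ℝ)) = Prod.swap '' C := by
      rw [Set.image_swap_eq_preimage_swap]
    rw [this]
    exact hC.image continuous_swap
  have hCv' : Convex ℝ (Prod.swap ⁻¹' C : Set (ℝ × ℝ)) := by
    intro p hp q hq a b ha hb hab
    exact hCv hp hq ha hb hab
  have key := step_fst h (Prod.swap ⁻¹' C) hC' hCv' c (by
      obtain ⟨p, hp, hpc⟩ := h1
      refine ⟨p.swap, ?_, hpc⟩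
      change p.swap.swap ∈ C
      rw [Prod.swap_swap]
      exact hp) (by
      obtain ⟨p, hp, hpc⟩ := h2
      refine ⟨p.swap, ?_, hpc⟩
      change p.swap.swap ∈ C
      rw [Prod.swap_swap]
      exact hp)
  have e1 : (Prod.swap ⁻¹' C ∩ {p : ℝ × ℝ | (ContinuousLinearMap.fst ℝ ℝ ℝ) p ≤ c}) =
      Prod.swap ⁻¹' (C ∩ {p : ℝ × ℝ | (ContinuousLinearMap.snd ℝ ℝ ℝ) p ≤ c}) := by
    ext p
    rfl
  have e2 : (Prod.swap ⁻¹' C ∩ {p : ℝ × ℝ | c + 1 ≤ (ContinuousLinearMap.fst ℝ ℝ ℝ) p}) =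
      Prod.swap ⁻¹' (C ∩ {p : ℝ × ℝ | c + 1 ≤ (ContinuousLinearMap.snd ℝ ℝ ℝ) p}) := by
    ext p
    rfl
  rw [e1, e2, ← swap_add, ← swap_add, ← swap_add, vol_swap, vol_swap, vol_swap] at key
  exact key

/-- separation by slabs parallel to the axes -/
def SepD (F : Finset (ℝ × ℝ)) : Prop :=
  ∀ t ∈ F, ∀ s ∈ F, t ≠ s → Slab Prod.fst F t s ∨ Slab Prod.fst F s t ∨
      Slab Prod.snd F t s ∨ Slab Prod.snd F s t

theorem Slab_sub {g : ℝ × ℝ → ℝ} {F F' : Finset (ℝ × ℝ)} {t s : ℝ × ℝ} (h : Slab g F t s)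
    (hF : F' ⊆ F) : Slab g F' t s := by
  obtain ⟨c, h1, h2, h3⟩ := h
  exact ⟨c, h1, h2, fun r hr => h3 r (hF hr)⟩

theorem SepD_sub {F F' : Finset (ℝ × ℝ)} (h : SepD F) (hF : F' ⊆ F) : SepD F' := by
  intro t ht s hs hne
  rcases h t (hF ht) s (hF hs) hne with h | h | h | h
  · exact Or.inl (Slab_sub h hF)
  · exact Or.inr (Or.inl (Slab_sub h hF))
  · exact Or.inr (Or.inr (Or.inl (Slab_sub h hF)))
  · exact Or.inr (Or.inr (Or.inr (Slab_sub h hF)))

theorem ex_cut (h : S_STEP) {F : Finset (ℝ × ℝ)} (hF : SepD F) {t s : ℝ × ℝ} (ht : t ∈ F)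
    (hs : s ∈ F) (hne : t ≠ s) : ∃ (u : (ℝ × ℝ) →L[ℝ] ℝ) (c : ℝ), StepFor u ∧
      (∃ r ∈ F, u r ≤ c) ∧ (∃ r ∈ F, c + 1 ≤ u r) ∧ ∀ r ∈ F, u r ≤ c ∨ c + 1 ≤ u r := by
  rcases hF t ht s hs hne with ⟨c, h1, h2, h3⟩ | ⟨c, h1, h2, h3⟩ | ⟨c, h1, h2, h3⟩ | ⟨c, h1, h2, h3⟩
  · exact ⟨_, c, step_fst h, ⟨t, ht, h1⟩, ⟨s, hs, h2⟩, h3⟩
  · exact ⟨_, c, step_fst h, ⟨s, hs, h1⟩, ⟨t, ht, h2⟩, h3⟩
  · exact ⟨_, c, step_snd h, ⟨t, ht, h1⟩, ⟨s, hs, h2⟩, h3⟩
  · exact ⟨_, c, step_snd h, ⟨s, hs, h1⟩, ⟨t, ht, h2⟩, h3⟩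

theorem core (h : S_STEP) :
    ∀ (n : ℕ) (F : Finset (ℝ × ℝ)), F.card = n → F.Nonempty → SepD F →
      (F.card : ℝ) + (volume Dia).toReal ≤
        (volume (convexHull ℝ (F : Set (ℝ × ℝ)) + Dia)).toReal + 1 := by
  classical
  intro n
  induction n using Nat.strong_induction_on with
  | _ n ih =>
    intro F hn hne hsep
    by_cases h1 : ∃ t ∈ F, ∃ s ∈ F, t ≠ s
    · obtain ⟨t', ht', s', hs', hts⟩ := h1
      obtain ⟨u, c, hu, ⟨t, ht, htc⟩, ⟨s, hs, hsc⟩, hr⟩ := ex_cut h hsep ht' hs' hts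
      set F1 := F.filter (fun r => u r ≤ c) with hF1
      set F2 := F.filter (fun r => c + 1 ≤ u r) with hF2
      have hdisj : Disjoint F1 F2 := by
        rw [Finset.disjoint_left]
        intro r h1 h2
        rw [hF1, Finset.mem_filter] at h1
        rw [hF2, Finset.mem_filter] at h2
        have := h1.2
        have := h2.2
        linarith
      have hun : F1 ∪ F2 = F := by
        ext r
        rw [Finset.mem_union, hF1, hF2, Finset.mem_filter, Finset.mem_filter]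
        constructor
        · rintro (h | h)
          · exact h.1
          · exact h.1
        · intro hrF
          rcases hr r hrF with h | h
          · exact Or.inl ⟨hrF, h⟩
          · exact Or.inr ⟨hrF, h⟩
      have hcard : F1.card + F2.card = F.card := by
        rw [← hun, Finset.card_union_of_disjoint hdisj]
      have hne1 : F1.Nonempty := ⟨t, Finset.mem_filter.2 ⟨ht, htc⟩⟩
      have hne2 : F2.Nonempty := ⟨s, Finset.mem_filter.2 ⟨hs, hsc⟩⟩
      have hp1 := Finset.card_pos.2 hne1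
      have hp2 := Finset.card_pos.2 hne2
      set C := convexHull ℝ (F : Set (ℝ × ℝ)) with hCdef
      have hCc : IsCompact C := Set.Finite.isCompact_convexHull (𝕜 := ℝ) F.finite_toSet
      have hCv : Convex ℝ C := convex_convexHull _ _
      have hfin : volume (C + Dia) ≠ ⊤ := (hCc.add bod_Dia.comp).measure_lt_top.ne
      have key := hu C hCc hCv c
        ⟨t, subset_convexHull _ _ (Finset.mem_coe.2 ht), htc⟩
        ⟨s, subset_convexHull _ _ (Finset.mem_coe.2 hs), hsc⟩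
      have i1 := ih F1.card (by omega) F1 rfl hne1 (SepD_sub hsep (Finset.filter_subset _ _))
      have i2 := ih F2.card (by omega) F2 rfl hne2 (SepD_sub hsep (Finset.filter_subset _ _))
      have m1 : (volume (convexHull ℝ (F1 : Set (ℝ × ℝ)) + Dia)).toReal ≤
          (volume ((C ∩ {p | u p ≤ c}) + Dia)).toReal := by
        refine ENNReal.toReal_mono ?_ (measure_mono (Set.add_subset_add_right ?_))
        · exact ne_top_of_le_ne_top hfin (measure_mono (Set.add_subset_add_right inter_subset_left))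
        · refine convexHull_min ?_ (hCv.inter (convex_halfSpace_le u.toLinearMap.isLinear c))
          intro r hr'
          rw [Finset.mem_coe, hF1, Finset.mem_filter] at hr'
          exact ⟨subset_convexHull _ _ (Finset.mem_coe.2 hr'.1), hr'.2⟩
      have m2 : (volume (convexHull ℝ (F2 : Set (ℝ × ℝ)) + Dia)).toReal ≤
          (volume ((C ∩ {p | c + 1 ≤ u p}) + Dia)).toReal := by
        refine ENNReal.toReal_mono ?_ (measure_mono (Set.add_subset_add_right ?_))
        · exact ne_top_of_le_ne_top hfin (measure_mono (Set.add_subset_add_right inter_subset_left))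
        · refine convexHull_min ?_ (hCv.inter (convex_halfSpace_ge u.toLinearMap.isLinear (c + 1)))
          intro r hr'
          rw [Finset.mem_coe, hF2, Finset.mem_filter] at hr'
          exact ⟨subset_convexHull _ _ (Finset.mem_coe.2 hr'.1), hr'.2⟩
      have hc : (F.card : ℝ) = F1.card + F2.card := by
        rw [← hcard]; push_cast; ring
      rw [hc]
      linarith
    · push Not at h1
      obtain ⟨t, ht⟩ := hne
      have hF : F = {t} := by
        ext r
        rw [Finset.mem_singleton]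
        constructor
        · intro hr
          exact h1 r hr t ht
        · rintro rfl
          exact ht
      rw [hF, Finset.card_singleton, Finset.coe_singleton, convexHull_singleton,
        vol_singleton_add]
      push_cast
      linarith

theorem t_DIA (h : S_STEP) : S_DIA := by
  intro F hF hsep
  have h1 := core h F.card F rfl hF hsep
  rw [vol_Dia] at h1
  linarith

end Pool.Agent.E8helper56.TS
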